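import Pool.Agent.SGY.Stmts

/-!
# SGY, row NOX: the edges of the second graph do not cross
-/

noncomputable section

namespace Pool.Agent.SGY.H13

open Pool.Agent.SGE Pool.Agent.SGP Pool.Agent.SGY

theorem xs_left {p q r s : ℝ × ℝ} (h : Xs p q r s) : Xs q p r s := by
  obtain ⟨h1, h2⟩ := h
  refine ⟨?_, ?_⟩
  · have e1 : o q p r = - o p q r := by unfold o; ring
    have e2 : o q p s = - o p q s := by unfold o; ring
    rw [e1, e2]
    linarith [neg_mul_neg (o p q r) (o p q s)]
  · rw [mul_comm]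
    exact h2

theorem xs_swap {p q r s : ℝ × ℝ} (h : Xs p q r s) : Xs r s p q := ⟨h.2, h.1⟩

theorem xs_right {p q r s : ℝ × ℝ} (h : Xs p q r s) : Xs p q s r :=
  xs_swap (xs_left (xs_swap h))

/-- segments in different angular sectors do not cross -/
theorem sector {A P Q R S : ℝ × ℝ} (h1 : 0 < o A Q P) (h2 : 0 < o A R Q) (h3 : 0 < o A S Q) :
    ¬ Xs P Q R S := by
  rintro ⟨x1, x2⟩
  have e1 : o P Q S - o P Q R = o R S P - o R S Q := by unfold o; ring
  have e2 : - o P Q S * o A R Q + o P Q R * o A S Q + o R S Q * o A Q P = 0 := by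
    unfold o; ring
  rcases lt_trichotomy (o P Q R) 0 with h | h | h
  · have h4 : 0 < o P Q S := by
      by_contra hc
      have := mul_nonneg_of_nonpos_of_nonpos h.le (not_lt.mp hc)
      linarith
    have h5 : o R S Q < 0 := by
      by_contra hc
      have h6 : 0 ≤ o R S Q := not_lt.mp hc
      have h7 : 0 ≤ o R S P := by linarith
      have := mul_nonneg h7 h6
      linarith
    have a1 := mul_pos h4 h2
    have a2 := mul_neg_of_neg_of_pos h h3
    have a3 := mul_neg_of_neg_of_pos h5 h1
    linarith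
  · rw [h, zero_mul] at x1
    exact absurd x1 (lt_irrefl _)
  · have h4 : o P Q S < 0 := by
      by_contra hc
      have := mul_nonneg h.le (not_lt.mp hc)
      linarith
    have h5 : 0 < o R S Q := by
      by_contra hc
      have h6 : o R S Q ≤ 0 := not_lt.mp hc
      have h7 : o R S P ≤ 0 := by linarith
      have := mul_nonneg_of_nonpos_of_nonpos h7 h6
      linarith
    have a1 := mul_neg_of_neg_of_pos h4 h2
    have a2 := mul_pos h h3
    have a3 := mul_pos h5 h1
    linarith

/-- the data of the second drawing -/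
structure Dat (k : ℕ) (D : ℕ → ℕ) (A X : ℝ × ℝ) (p : ℕ → ℝ × ℝ) : Prop where
  rad : ∀ i j, 1 ≤ i → i < j → j ≤ k → 0 < o A (p j) (p i)
  low : ∀ i l j, 1 ≤ i → i < l → l < j → j ≤ k → Ed k D i j → 0 < o (p j) (p i) (p l)
  near : ∀ i j, 1 ≤ i → i ≤ k → 1 ≤ j → j ≤ k → i ≠ j →
    0 < o X (p i) (p j) * o A (p i) (p j)

/-- edges `i < j`, `i' < j'` with `i < i'` -/
theorem core1 {k : ℕ} {D : ℕ → ℕ} {A X : ℝ × ℝ} {p : ℕ → ℝ × ℝ} (h : Dat k D A X p)
    {i j i' j' : ℕ} (hi : 1 ≤ i) (hij : i < j) (hj : j ≤ k) (he : Ed k D i j)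
    (hij' : i' < j') (hj' : j' ≤ k) (he' : Ed k D i' j') (hlt : i < i') :
    ¬ Xs (p i) (p j) (p i') (p j') := by
  rcases lt_trichotomy j i' with h1 | h1 | h1
  · exact sector (A := A) (h.rad i j hi hij hj) (h.rad j i' (by omega) h1 (by omega))
      (h.rad j j' (by omega) (by omega) hj')
  · subst h1
    rintro ⟨x1, _⟩
    have : o (p i) (p j) (p j) = 0 := by unfold o; ring
    rw [this, zero_mul] at x1
    exact absurd x1 (lt_irrefl _)
  · rcases lt_trichotomy j' j with h2 | h2 | h2
    · rintro ⟨x1, _⟩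
      have a1 := h.low i i' j hi hlt h1 hj he
      have a2 := h.low i j' j hi (by omega) h2 hj he
      have e1 : o (p i) (p j) (p i') = - o (p j) (p i) (p i') := by unfold o; ring
      have e2 : o (p i) (p j) (p j') = - o (p j) (p i) (p j') := by unfold o; ring
      rw [e1, e2, neg_mul_neg] at x1
      linarith [mul_pos a1 a2]
    · subst h2
      rintro ⟨x1, _⟩
      have : o (p i) (p j') (p j') = 0 := by unfold o; ring
      rw [this, mul_zero] at x1
      exact absurd x1 (lt_irrefl _)
    · exfalso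
      have a1 := (he i' hlt h1).2 hj
      have a2 := (he' j h1 h2).1 (by omega)
      omega

theorem core1' {k : ℕ} {D : ℕ → ℕ} {A X : ℝ × ℝ} {p : ℕ → ℝ × ℝ} (h : Dat k D A X p)
    {i j i' j' : ℕ} (hi : 1 ≤ i) (hij : i < j) (hj : j ≤ k) (he : Ed k D i j)
    (hi' : 1 ≤ i') (hij' : i' < j') (hj' : j' ≤ k) (he' : Ed k D i' j') :
    ¬ Xs (p i) (p j) (p i') (p j') := by
  rcases lt_trichotomy i i' with h1 | h1 | h1
  · exact core1 h hi hij hj he hij' hj' he' h1
  · subst h1
    rintro ⟨x1, _⟩
    have : o (p i) (p j) (p i) = 0 := by unfold o; ring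
    rw [this, zero_mul] at x1
    exact absurd x1 (lt_irrefl _)
  · intro hx
    exact core1 h hi' hij' hj' he' hij hj he h1 (xs_swap hx)

theorem core2 {k : ℕ} {D : ℕ → ℕ} {A X : ℝ × ℝ} {p : ℕ → ℝ × ℝ} (h : Dat k D A X p)
    {j i' j' : ℕ} (hj1 : 1 ≤ j) (hj : j ≤ k)
    (hi' : 1 ≤ i') (hij' : i' < j') (hj' : j' ≤ k) (he' : Ed k D i' j') :
    ¬ Xs X (p j) (p i') (p j') := by
  rintro ⟨x1, x2⟩
  by_cases h1 : j = i'
  · subst h1
    have : o (p j) (p j') (p j) = 0 := by unfold o; ring
    rw [this, mul_zero] at x2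
    exact absurd x2 (lt_irrefl _)
  by_cases h2 : j = j'
  · subst h2
    have : o (p i') (p j) (p j) = 0 := by unfold o; ring
    rw [this, mul_zero] at x2
    exact absurd x2 (lt_irrefl _)
  have n1 := h.near j i' hj1 hj hi' (by omega) h1
  have n2 := h.near j j' hj1 hj (by omega) hj' h2
  rcases lt_or_gt_of_ne h1 with h3 | h3
  · -- `j < i' < j'`
    have r1 := h.rad j i' hj1 h3 (by omega)
    have r2 := h.rad j j' hj1 (by omega) hj'
    have e1 : o A (p j) (p i') = - o A (p i') (p j) := by unfold o; ring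
    have e2 : o A (p j) (p j') = - o A (p j') (p j) := by unfold o; ring
    have q1 : o X (p j) (p i') < 0 := by
      by_contra hc
      have := mul_nonneg (not_lt.mp hc) r1.le
      rw [e1] at n1
      linarith [mul_neg (o X (p j) (p i')) (o A (p i') (p j))]
    have q2 : o X (p j) (p j') < 0 := by
      by_contra hc
      have := mul_nonneg (not_lt.mp hc) r2.le
      rw [e2] at n2
      linarith [mul_neg (o X (p j) (p j')) (o A (p j') (p j))]
    linarith [mul_pos_of_neg_of_neg q1 q2]
  · rcases lt_or_gt_of_ne h2 with h4 | h4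
    · -- `i' < j < j'`
      have l1 := h.low i' j j' hi' h3 h4 hj' he'
      have r3 := h.rad i' j' hi' hij' hj'
      have n3 := h.near j' i' (by omega) hj' hi' (by omega) (by omega)
      have q3 : 0 < o X (p j') (p i') := by
        by_contra hc
        have := mul_nonneg_of_nonpos_of_nonpos (not_lt.mp hc) (neg_nonpos.mpr r3.le)
        linarith [mul_neg (o X (p j') (p i')) (o A (p j') (p i'))]
      have e3 : o (p i') (p j') X = - o X (p j') (p i') := by unfold o; ring
      have e4 : o (p i') (p j') (p j) = - o (p j') (p i') (p j) := by unfold o; ring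
      rw [e3, e4, neg_mul_neg] at x2
      linarith [mul_pos q3 l1]
    · -- `i' < j' < j`
      have r1 := h.rad i' j hi' h3 hj
      have r2 := h.rad j' j (by omega) h4 hj
      have q1 : 0 < o X (p j) (p i') := by
        by_contra hc
        have := mul_nonneg_of_nonpos_of_nonpos (not_lt.mp hc) (neg_nonpos.mpr r1.le)
        linarith [mul_neg (o X (p j) (p i')) (o A (p j) (p i'))]
      have q2 : 0 < o X (p j) (p j') := by
        by_contra hc
        have := mul_nonneg_of_nonpos_of_nonpos (not_lt.mp hc) (neg_nonpos.mpr r2.le)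
        linarith [mul_neg (o X (p j) (p j')) (o A (p j) (p j'))]
      linarith [mul_pos q1 q2]

/-- directed edges -/
def YD (k : ℕ) (D : ℕ → ℕ) (i j : ℕ) : Prop :=
  (i = 0 ∧ 1 ≤ j ∧ j ≤ k) ∨ (1 ≤ i ∧ i < j ∧ j ≤ k ∧ Ed k D i j)

theorem ye_yd {k : ℕ} {D : ℕ → ℕ} {i j : ℕ} (h : YE k D i j) : YD k D i j ∨ YD k D j i := by
  rcases h with h | h | h | h
  · exact Or.inl (Or.inl h)
  · exact Or.inr (Or.inl h)
  · exact Or.inl (Or.inr h)
  · exact Or.inr (Or.inr h)

theorem core {k : ℕ} {D : ℕ → ℕ} {A X : ℝ × ℝ} {p : ℕ → ℝ × ℝ} (h : Dat k D A X p)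
    {i j i' j' : ℕ} (h1 : YD k D i j) (h2 : YD k D i' j') :
    ¬ Xs (if i = 0 then X else p i) (if j = 0 then X else p j)
      (if i' = 0 then X else p i') (if j' = 0 then X else p j') := by
  rcases h1 with ⟨rfl, a1, a2⟩ | ⟨a1, a2, a3, a4⟩
  · rcases h2 with ⟨rfl, b1, b2⟩ | ⟨b1, b2, b3, b4⟩
    · rintro ⟨x1, _⟩
      have : o X (if j = 0 then X else p j) X = 0 := by unfold o; ring
      rw [if_pos rfl, this, zero_mul] at x1
      exact absurd x1 (lt_irrefl _)
    · rw [if_pos rfl, if_neg (by omega), if_neg (by omega), if_neg (by omega)]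
      exact core2 h a1 a2 b1 b2 b3 b4
  · rcases h2 with ⟨rfl, b1, b2⟩ | ⟨b1, b2, b3, b4⟩
    · rw [if_neg (by omega), if_neg (by omega), if_pos rfl, if_neg (by omega)]
      intro hx
      exact core2 h b1 b2 a1 a2 a3 a4 (xs_swap hx)
    · rw [if_neg (by omega), if_neg (by omega), if_neg (by omega), if_neg (by omega)]
      exact core1' h a1 a2 a3 a4 b1 b2 b3 b4

theorem nox : NoxStmt := by
  intro V a b c I k D f π X hg hX i j i' j' h1 h2
  have hps : ∀ i, 1 ≤ i → i ≤ k → ps b c k π i = π i := by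
    intro i h1 h2
    unfold ps
    rw [if_neg (by omega), if_pos h2]
  have hd : Dat k D (f a) X (fun i => f (π i)) := by
    refine ⟨?_, ?_, ?_⟩
    · intro i j hi hij hj
      have := hg.rad i j hij (by omega)
      rw [hps i hi (by omega), hps j (by omega) hj] at this
      exact this
    · intro i l j hi hil hlj hj he
      have := hg.low i l j hil hlj (by omega) he
      rw [hps i hi (by omega), hps j (by omega) hj, hps l (by omega) (by omega)] at this
      exact this
    · intro i j hi hi' hj hj' hij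
      exact hX _ (hg.pin i hi hi') _ (hg.pin j hj hj')
        (fun he => hij (hg.pij i j hi hi' hj hj' he))
  rcases ye_yd h1 with a1 | a1
  · rcases ye_yd h2 with a2 | a2
    · exact core hd a1 a2
    · intro hx
      exact core hd a1 a2 (xs_right hx)
  · rcases ye_yd h2 with a2 | a2
    · intro hx
      exact core hd a1 a2 (xs_left hx)
    · intro hx
      exact core hd a1 a2 (xs_left (xs_right hx))

end Pool.Agent.SGY.H13
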