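import Pool.Agent.SGY.Stmts

/-!
# SGY, row THY: a planar graph and a graph with an outerplanar vertex-deleted subgraph have drawings
on one set of points
-/

noncomputable section

namespace Pool.Agent.SGY.H13

open Pool.Agent.SGE Pool.Agent.SGP Pool.Agent.SGY

/-- the positions of the elements of a finite type sorted by `r` -/
theorem rank {α : Type} [Fintype α] (r : α → ℕ) (hr : Function.Injective r) :
    ∃ pos : α → ℕ, (∀ u, 1 ≤ pos u ∧ pos u ≤ Fintype.card α) ∧
      ∀ u u', pos u < pos u' ↔ r u < r u' := by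
  classical
  let F : α → Finset α := fun u => Finset.univ.filter (fun t => r t < r u)
  have hF : ∀ u t, t ∈ F u ↔ r t < r u := by
    intro u t
    show t ∈ Finset.univ.filter (fun t => r t < r u) ↔ r t < r u
    rw [Finset.mem_filter]
    exact ⟨fun h => h.2, fun h => ⟨Finset.mem_univ _, h⟩⟩
  have h1 : ∀ u, (F u).card < Fintype.card α := by
    intro u
    rw [← Finset.card_univ]
    apply Finset.card_lt_card
    rw [Finset.ssubset_iff_of_subset (Finset.subset_univ _)]
    exact ⟨u, Finset.mem_univ _, fun h => lt_irrefl _ ((hF u u).mp h)⟩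
  have h2 : ∀ u u', r u < r u' → (F u).card < (F u').card := by
    intro u u' h
    apply Finset.card_lt_card
    rw [Finset.ssubset_iff_of_subset]
    · exact ⟨u, (hF _ _).mpr h, fun h => lt_irrefl _ ((hF u u).mp h)⟩
    · intro t ht
      exact (hF _ _).mpr (lt_trans ((hF _ _).mp ht) h)
  refine ⟨fun u => (F u).card + 1, ?_, ?_⟩
  · intro u
    exact ⟨Nat.le_add_left 1 _, h1 u⟩
  · intro u u'
    show (F u).card + 1 < (F u').card + 1 ↔ r u < r u'
    constructor
    · intro h
      rcases lt_trichotomy (r u) (r u') with h3 | h3 | h3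
      · exact h3
      · rw [hr h3] at h
        exact absurd h (lt_irrefl _)
      · have := h2 _ _ h3
        omega
    · intro h
      have := h2 _ _ h
      omega

theorem o_rot (p q r : ℝ × ℝ) : o q r p = o p q r := by unfold o; ring

theorem o_same1 (p q : ℝ × ℝ) : o p p q = 0 := by unfold o; ring

/-- the second graph -/
theorem second {n : ℕ} {V : Type} {a b c : V} {E' : V → V → Prop}
    (G₂ : SimpleGraph (Fin n)) (v : Fin n) (hOP : OnePage (G₂.induce {u | u ≠ v}))
    (hNox : NoxStmt) (hDep : DepStmt) :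
    ∃ (D : ℕ → ℕ) (num : Fin n → ℕ), (∀ u, num u ≤ n - 1) ∧ (∀ u, num u = 0 ↔ u = v) ∧
      (∀ u u', num u = num u' → u = u') ∧
      ∀ (f : V → ℝ × ℝ) (π : ℕ → V) (X : ℝ × ℝ), GdY c a b (Inn c a b E') (n - 1) D f π →
      (∀ y ∈ Inn c a b E', ∀ z ∈ Inn c a b E', y ≠ z →
        0 < o X (f y) (f z) * o (f c) (f y) (f z)) →
      ∀ x y z t, G₂.Adj x y → G₂.Adj z t →
        ¬ Xs (if num x = 0 then X else f (π (num x))) (if num y = 0 then X else f (π (num y)))
          (if num z = 0 then X else f (π (num z))) (if num t = 0 then X else f (π (num t))) := by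
  classical
  obtain ⟨r, hr, hcr⟩ := hOP
  obtain ⟨pos, hp1, hp2⟩ := rank r hr
  have hcv : Fintype.card {x : Fin n | x ≠ v} = n - 1 := by
    rw [Set.card_ne_eq, Fintype.card_fin]
  rw [hcv] at hp1
  have hp3 : ∀ u u', pos u = pos u' → u = u' := by
    intro u u' h
    apply hr
    rcases lt_trichotomy (r u) (r u') with h1 | h1 | h1
    · have := (hp2 _ _).mpr h1
      omega
    · exact h1
    · have := (hp2 _ _).mpr h1
      omega
  let R : ℕ → ℕ → Prop := fun i j => ∃ u u' : {x : Fin n | x ≠ v},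
    pos u = i ∧ pos u' = j ∧ (G₂.induce {u | u ≠ v}).Adj u u'
  obtain ⟨D, hD⟩ := hDep (n - 1) R (by
    rintro i j l m _ h1 h2 h3 _ ⟨⟨u1, u3, e1, e3, h13⟩, ⟨u2, u4, e2, e4, h24⟩⟩
    rw [← e1, ← e2] at h1
    rw [← e2, ← e3] at h2
    rw [← e3, ← e4] at h3
    exact hcr u1 u2 u3 u4 ((hp2 _ _).mp h1) ((hp2 _ _).mp h2) ((hp2 _ _).mp h3) ⟨h13, h24⟩)
  let num : Fin n → ℕ := fun u => if hu : u ≠ v then pos ⟨u, hu⟩ else 0
  have hnum1 : ∀ u (hu : u ≠ v), num u = pos ⟨u, hu⟩ := fun u hu => dif_pos hu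
  have hnum0 : num v = 0 := dif_neg (fun h => h rfl)
  have hn0 : ∀ u, num u = 0 ↔ u = v := by
    intro u
    constructor
    · intro h
      by_contra hu
      rw [hnum1 u hu] at h
      have := (hp1 ⟨u, hu⟩).1
      omega
    · rintro rfl
      exact hnum0
  have hnle : ∀ u, num u ≤ n - 1 := by
    intro u
    by_cases hu : u = v
    · rw [hu, hnum0]
      exact Nat.zero_le _
    · rw [hnum1 u hu]
      exact (hp1 _).2
  have hninj : ∀ u u', num u = num u' → u = u' := by
    intro u u' h
    by_cases hu : u = v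
    · rw [hu, hnum0] at h
      rw [hu]
      exact ((hn0 u').mp h.symm).symm
    · by_cases hu' : u' = v
      · rw [hu', hnum0] at h
        rw [hu']
        exact (hn0 u).mp h
      · rw [hnum1 u hu, hnum1 u' hu'] at h
        have := hp3 _ _ h
        exact congrArg Subtype.val this
  refine ⟨D, num, hnle, hn0, hninj, ?_⟩
  have hYE : ∀ x y, G₂.Adj x y → YE (n - 1) D (num x) (num y) := by
    intro x y hxy
    have hne : x ≠ y := G₂.ne_of_adj hxy
    by_cases hx : x = v
    · left
      have hy : y ≠ v := fun h => hne (hx.trans h.symm)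
      refine ⟨(hn0 x).mpr hx, ?_, hnle y⟩
      rw [hnum1 y hy]
      exact (hp1 _).1
    · by_cases hy : y = v
      · right; left
        refine ⟨(hn0 y).mpr hy, ?_, hnle x⟩
        rw [hnum1 x hx]
        exact (hp1 _).1
      · have hRxy : R (num x) (num y) :=
          ⟨⟨x, hx⟩, ⟨y, hy⟩, (hnum1 x hx).symm, (hnum1 y hy).symm, hxy⟩
        have hRyx : R (num y) (num x) :=
          ⟨⟨y, hy⟩, ⟨x, hx⟩, (hnum1 y hy).symm, (hnum1 x hx).symm, hxy.symm⟩
        have h1x : 1 ≤ num x := by
          rw [hnum1 x hx]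
          exact (hp1 _).1
        have h1y : 1 ≤ num y := by
          rw [hnum1 y hy]
          exact (hp1 _).1
        rcases lt_trichotomy (num x) (num y) with h | h | h
        · right; right; left
          exact ⟨h1x, h, hnle y, hD _ _ h1x h (hnle y) hRxy⟩
        · exact absurd (hninj _ _ h) hne
        · right; right; right
          exact ⟨h1y, h, hnle x, hD _ _ h1y h (hnle x) hRyx⟩
  intro f π X hY hX x y z t hxy hzt
  exact hNox hY hX _ _ _ _ (hYE x y hxy) (hYE z t hzt)

theorem thy (hGex : GexStmt) (hCtr : CtrStmt) (hRot : RotStmt) (hIns : InsStmt)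
    (hDrw : DrwStmt) (hMay : MayStmt) (hStc : StcStmt) (hFpl : FplStmt) (hNox : NoxStmt)
    (hDep : DepStmt) : ThyStmt := by
  classical
  intro n G₁ G₂ hG1 v hOP
  obtain ⟨E, F, hN, hE, hR⟩ := hGex G₁ hG1
  have hInn : Inn (Sum.inr 0) (Sum.inr 1) (Sum.inr 2) E =
      Set.range (Sum.inl : Fin n → Fin n ⊕ Fin 3) := by
    ext x
    constructor
    · rintro ⟨h0, h1, h2, -⟩
      rcases x with x | x
      · exact ⟨x, rfl⟩
      · exfalso
        fin_cases x
        · exact h0 rfl
        · exact h1 rfl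
        · exact h2 rfl
    · rintro ⟨v, rfl⟩
      exact ⟨Sum.inl_ne_inr, Sum.inl_ne_inr, Sum.inl_ne_inr, hR _⟩
  have hcard : (Inn (Sum.inr 0) (Sum.inr 1) (Sum.inr 2) E).ncard = n := by
    rw [hInn, ← Set.image_univ, Set.ncard_image_of_injective _ Sum.inl_injective,
      Set.ncard_univ, Nat.card_eq_fintype_card, Fintype.card_fin]
  obtain ⟨E', F', P, p, x₀, q, mid, Q, hC⟩ := hCtr hN (by rw [hInn]; exact ⟨_, ⟨v, rfl⟩⟩)
  have hala : ∀ u : Fin n, (Sum.inl u : Fin n ⊕ Fin 3) ≠ Sum.inr 0 := fun u => Sum.inl_ne_inr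
  generalize ha' : (Sum.inr 0 : Fin n ⊕ Fin 3) = a at *
  generalize hb' : (Sum.inr 1 : Fin n ⊕ Fin 3) = b at *
  generalize hc' : (Sum.inr 2 : Fin n ⊕ Fin 3) = c at *
  have hab : a ≠ b := hN.ab
  have hac : a ≠ c := by
    rw [← ha', ← hc']
    intro h
    have := Sum.inr_injective h
    exact absurd this (by decide)
  have hbc : b ≠ c := by
    rw [← hb', ← hc']
    intro h
    have := Sum.inr_injective h
    exact absurd this (by decide)
  -- all vertices except `x₀` are vertices of the contracted triangulation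
  have hR' : ∀ x, x ≠ x₀ → Rel E' x := fun x hx => ((hC.rel x).mp (hR x)).resolve_left hx
  have hx0 : ¬ Rel E' x₀ := fun ⟨y, hy⟩ => hC.iso y hy
  have hx0I : x₀ ∈ Inn a b c E := ⟨hC.va, hC.vb, hC.vc, hR _⟩
  have hI' : Inn a b c E = insert x₀ (Inn a b c E') := by
    ext x
    rw [Set.mem_insert_iff]
    constructor
    · rintro ⟨h1, h2, h3, _⟩
      by_cases hx : x = x₀
      · exact Or.inl hx
      · exact Or.inr ⟨h1, h2, h3, hR' x hx⟩
    · rintro (rfl | ⟨h1, h2, h3, _⟩)
      · exact hx0I
      · exact ⟨h1, h2, h3, hR x⟩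
  have hx0n : x₀ ∉ Inn a b c E' := fun h => hx0 h.2.2.2
  have hcard' : (Inn a b c E').ncard = n - 1 := by
    have h1 : (insert x₀ (Inn a b c E')).ncard = (Inn a b c E').ncard + 1 :=
      Set.ncard_insert_of_notMem hx0n (Set.toFinite _)
    rw [← hI', hcard] at h1
    omega
  have hIc : Inn c a b E' = Inn a b c E' := by
    ext x
    constructor
    · rintro ⟨h1, h2, h3, h4⟩
      exact ⟨h2, h3, h1, h4⟩
    · rintro ⟨h1, h2, h3, h4⟩
      exact ⟨h3, h1, h2, h4⟩
  -- the positions of the vertices of `G₂ - v`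
  obtain ⟨D, num, hn1, hn2, hn3, hns⟩ := second (a := a) (b := b) (c := c) (E' := E') G₂ v hOP hNox hDep
  -- the main induction
  have hN2 : NT c a [c, b, a] E' F' := hRot (hRot hC.nt)
  obtain ⟨f, π, hf, hπ⟩ := hMay (n - 1) D hN2 (by rw [hIc]; exact hcard')
  have hf' : GdT a b c E' F' f := by
    refine ⟨hf.gp, ?_, ?_, hf.fac⟩
    · have := hf.tri
      rw [o_rot (f c) (f a) (f b)]
      exact this
    · intro x hx
      rw [← hIc] at hx
      obtain ⟨h1, h2, h3⟩ := hf.ins x hx
      exact ⟨h2, h3, h1⟩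
  obtain ⟨hcpq, hstc⟩ := hStc hN hC hf'
  obtain ⟨X, hX⟩ := hIns c p q (Rel E') f hcpq (by
    intro y hy hyc h
    by_cases hya : y = a
    · have := hf'.gp y c b hy (hR' c (fun h => hC.vc h.symm)) (hR' b (fun h => hC.vb h.symm))
        hyc (by rw [hya]; exact hab) (fun h => hbc h.symm)
      rw [h, o_same1] at this
      exact this rfl
    · have := hf'.gp y c a hy (hR' c (fun h => hC.vc h.symm)) (hR' a (fun h => hC.va h.symm))
        hyc hya (fun h => hac h.symm)
      rw [h, o_same1] at this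
      exact this rfl) (by
    intro y z hy hz hyc hzc hyz
    exact hf'.gp c y z (hR' c (fun h => hC.vc h.symm)) hy hz (fun h => hyc h.symm)
      (fun h => hzc h.symm) hyz)
  have hg := hstc X hX
  generalize hgd : Function.update f x₀ X = g at *
  have hg0 : g x₀ = X := by
    rw [← hgd]
    exact Function.update_self _ _ _
  have hg1 : ∀ x, x ≠ x₀ → g x = f x := by
    intro x hx
    rw [← hgd]
    exact Function.update_of_ne hx _ _
  have hRa : ∀ x, Rel E x := hR
  -- the first drawing
  have d1 : Draw G₁ (fun u => g (Sum.inl u)) := by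
    refine hDrw (g a) ?_ ?_ ?_
    · intro x y t hxy hxt hyt
      exact hg.gp _ _ _ (hR _) (hR _) (hR _) (fun e => hxy (Sum.inl_injective e))
        (fun e => hxt (Sum.inl_injective e)) (fun e => hyt (Sum.inl_injective e))
    · intro x y hxy
      exact hg.gp _ _ _ (hR _) (hR _) (hR _) (fun e => hxy (Sum.inl_injective e))
        (hala x) (hala y)
    · intro x y u t hxy hut
      exact hFpl hN hg _ _ _ _ (hE _ _ hxy) (hE _ _ hut)
  -- the second drawing
  let τ : Fin n → Fin n ⊕ Fin 3 := fun u => if num u = 0 then x₀ else π (num u)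
  have hπI : ∀ u, num u ≠ 0 → π (num u) ∈ Inn a b c E' := by
    intro u hu
    rw [← hIc]
    exact hπ.pin _ (Nat.one_le_iff_ne_zero.mpr hu) (hn1 u)
  have hτI : ∀ u, τ u ∈ Inn a b c E := by
    intro u
    rw [hI']
    by_cases hu : num u = 0
    · left
      exact if_pos hu
    · right
      show (if num u = 0 then x₀ else π (num u)) ∈ Inn a b c E'
      rw [if_neg hu]
      exact hπI u hu
  have hτg : ∀ u, g (τ u) = if num u = 0 then X else f (π (num u)) := by
    intro u
    show g (if num u = 0 then x₀ else π (num u)) = _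
    by_cases hu : num u = 0
    · rw [if_pos hu, if_pos hu, hg0]
    · rw [if_neg hu, if_neg hu, hg1]
      intro h
      have := hπI u hu
      rw [h] at this
      exact hx0n this
  have hτn : ∀ x y, x ≠ y → τ x ≠ τ y := by
    intro x y hxy h
    apply hxy
    apply hn3
    by_cases hx : num x = 0
    · by_cases hy : num y = 0
      · rw [hx, hy]
      · exfalso
        have e : (if num x = 0 then x₀ else π (num x)) = if num y = 0 then x₀ else π (num y) := h
        rw [if_pos hx, if_neg hy] at e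
        have := hπI y hy
        rw [← e] at this
        exact hx0n this
    · by_cases hy : num y = 0
      · exfalso
        have e : (if num x = 0 then x₀ else π (num x)) = if num y = 0 then x₀ else π (num y) := h
        rw [if_neg hx, if_pos hy] at e
        have := hπI x hx
        rw [e] at this
        exact hx0n this
      · have e : (if num x = 0 then x₀ else π (num x)) = if num y = 0 then x₀ else π (num y) := h
        rw [if_neg hx, if_neg hy] at e
        exact hπ.pij _ _ (Nat.one_le_iff_ne_zero.mpr hx) (hn1 x)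
          (Nat.one_le_iff_ne_zero.mpr hy) (hn1 y) e
  have d2 : Draw G₂ (fun u => g (τ u)) := by
    refine hDrw (g a) ?_ ?_ ?_
    · intro x y t hxy hxt hyt
      exact hg.gp _ _ _ (hR _) (hR _) (hR _) (hτn _ _ hxy) (hτn _ _ hxt) (hτn _ _ hyt)
    · intro x y hxy
      exact hg.gp _ _ _ (hR _) (hR _) (hR _) (hτn _ _ hxy) (hτI x).1 (hτI y).1
    · intro x y u t hxy hut
      show ¬ Xs (g (τ x)) (g (τ y)) (g (τ u)) (g (τ t))
      rw [hτg, hτg, hτg, hτg]
      refine hns f π X hπ ?_ x y u t hxy hut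
      intro y hy z hz hyz
      exact hX.near y z hy.2.2.2 hz.2.2.2 hy.1 hz.1 hyz
  refine ⟨Finset.univ.image (fun u => g (Sum.inl u)), ?_, ⟨_, d1, ?_⟩, ⟨_, d2, ?_⟩⟩
  · rw [Finset.card_image_of_injective _ d1.inj, Finset.card_univ, Fintype.card_fin]
  · intro u
    exact Finset.mem_image_of_mem _ (Finset.mem_univ u)
  · intro u
    have h1 := hτI u
    rw [hInn] at h1
    obtain ⟨w, hw⟩ := h1
    show g (τ u) ∈ _
    rw [← hw]
    exact Finset.mem_image_of_mem (fun u => g (Sum.inl u)) (Finset.mem_univ w)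

end Pool.Agent.SGY.H13
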